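import Pool.Agent.Helper19.HC.SCW

/-!
# MP_a41896_nt: hand-in form (window form, draft)
-/

set_option autoImplicit false

namespace Pool.Agent.Helper19.HC.HandW

open WeierstrassCurve NumberField Height MvPolynomial

noncomputable section

variable {K : Type} [Field K]

/-- The `x`-coordinate of a nonsingular `K`-point of a Weierstrass cubic; `0` at the point at
infinity (the origin of the group). -/
def xCoord {W : Affine K} : W.Point → K
  | .zero => 0
  | .some x _ _ => x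

/-- The sum of `f` over all places of the number field `K`, the archimedean ones being counted with
their local degrees. -/
def sumPlaces [NumberField K] (f : AbsoluteValue K ℝ → ℝ) : ℝ :=
  ∑ v : InfinitePlace K, (v.mult : ℝ) * f v.val + ∑ᶠ v : FinitePlace K, f v.val

/-- The value at `y = ((X_i : Z_i))_i` of the multihomogeneous polynomial of degree `(D, ..., D)` given
by `f`: `Σ_m f_m ∏_i X_i^(m_i) Z_i^(D - m_i)`. -/
def homValue {σ Ω : Type} [Fintype σ] [Field Ω] [Algebra K Ω] (D : ℕ) (f : MvPolynomial σ K)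
    (y : σ → Fin 2 → Ω) : Ω :=
  ∑ m ∈ f.support, algebraMap K Ω (coeff m f) * ∏ i, (y i 0 ^ m i * y i 1 ^ (D - m i))

/-- The set of common zeros in `(ℙ¹)^σ` of the multihomogeneous polynomials of degree `(D, ..., D)` given
by the `f_j` has codimension `> s` (every set of points of `ℙ¹` over `Ω` is represented by pairs
`(x, 1)` or `(1, 0)`). -/
def CodimGT {σ ι : Type} [Fintype σ] (D : ℕ) (f : ι → MvPolynomial σ K) (s : ℕ) : Prop :=
  ∀ (Ω : Type) [Field Ω] [Algebra K Ω] (y : σ → Fin 2 → Ω), (∀ i, y i 1 = 1 ∨ y i = ![1, 0]) →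
    (∀ j, homValue D (f j) y = 0) → ∃ T : Finset Ω, T.card + s < Fintype.card σ ∧
      ∀ i, IsAlgebraic (IntermediateField.adjoin K (T : Set Ω)) (y i 0)

/-- `Σ_v log⁺ (∏_i max(1,|x_i|_v)^D / max_j |f_j(x)|_v)`: the height of the point with the
`x`-coordinates `x_i` with respect to the closed subscheme defined by the `f_j`. -/
def centreHeight [NumberField K] {σ ι : Type} [Fintype σ] (D : ℕ) (f : ι → MvPolynomial σ K)
    (x : σ → K) : ℝ :=
  sumPlaces fun v => Real.posLog ((∏ i, max 1 (v (x i))) ^ D / ⨆ j, v (eval x (f j)))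

/-- `Σ_i h(x_i)` -/
def baseHeight [NumberField K] {σ : Type} [Fintype σ] (x : σ → K) : ℝ := ∑ i, logHeight₁ (x i)

/-- The `x`-coordinates of a point of `∏_i W_i`. -/
def xCoords {σ : Type} {W : σ → Affine K} (z : ∀ i, (W i).Point) (i : σ) : K := xCoord (z i)

theorem xCoord_eq {W : Affine K} (P : W.Point) : xCoord P = Pool.Agent.Helper29.BL.xc P := by
  cases P <;> rfl

theorem xCoords_eq {σ : Type} {W : σ → Affine K} (z : ∀ i, (W i).Point) :
    xCoords z = Pool.Agent.Helper60.HC.xs z := funext fun i => xCoord_eq _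

theorem sumPlaces_eq [NumberField K] (f : AbsoluteValue K ℝ → ℝ) :
    sumPlaces f = Pool.Agent.Helper29.BL.PS f := by
  unfold sumPlaces Pool.Agent.Helper29.BL.PS
  rw [NumberField.sum_archAbsVal_eq, NumberField.sum_nonarchAbsVal_eq]
  simp

theorem centreHeight_eq [NumberField K] {σ ι : Type} [Fintype σ] (D : ℕ)
    (f : ι → MvPolynomial σ K) (x : σ → K) : centreHeight D f x = Pool.Agent.Helper5.UN.cH D f x := by
  unfold centreHeight Pool.Agent.Helper5.UN.cH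
  rw [sumPlaces_eq]
  rfl

theorem centreHeight_nonneg [NumberField K] {σ ι : Type} [Fintype σ] (D : ℕ)
    (f : ι → MvPolynomial σ K) (x : σ → K) : 0 ≤ centreHeight D f x := by
  unfold centreHeight sumPlaces
  refine add_nonneg (Finset.sum_nonneg fun v _ => mul_nonneg (Nat.cast_nonneg _)
    Real.posLog_nonneg) (finsum_nonneg fun v => Real.posLog_nonneg)

/-- the transfer from `cH` to `hK`, `hN`, `hH` -/
theorem transfer (K : Type) [Field K] [NumberField K] [DecidableEq K] (σ : Type) [Fintype σ]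
    (W : σ → Affine K) (ι : Type) [Fintype ι] (D : ℕ) (f : ι → MvPolynomial σ K)
    (X : Type) (π : X → ∀ i, (W i).Point) (hK hN hH : X → ℝ) (c₀ C₀ : ℝ)
    (Z₀ : MvPolynomial σ K)
    (hcan : ∀ x, (∀ i, π x i ≠ 0) → eval (xCoords (π x)) Z₀ ≠ 0 →
      hK x ≤ C₀ * centreHeight D f (xCoords (π x)) + C₀)
    (hcount : ∀ x, 0 ≤ hN x)
    (hbig : ∀ x, (∀ i, π x i ≠ 0) → eval (xCoords (π x)) Z₀ ≠ 0 →
      c₀ * baseHeight (xCoords (π x)) - C₀ ≤ hH x)
    (δ C : ℝ) (hδ : 0 < δ) (x : X) (hx : ∀ i, π x i ≠ 0)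
    (h6 : eval (xCoords (π x)) Z₀ ≠ 0)
    (h11 : Pool.Agent.Helper5.UN.cH D f (Pool.Agent.Helper60.HC.xs (π x)) ≤
      δ * c₀ / max C₀ 1 * ∑ i, Pool.Agent.Helper29.BL.hx (π x i) + C) :
    hN x ≥ hK x - δ * hH x - (max C₀ 1 * C + max C₀ 1 + δ * max C₀ 1) := by
  set C₁ := max C₀ 1 with hC₁
  have hC₁1 : 1 ≤ C₁ := le_max_right _ _
  have hC₁0 : C₀ ≤ C₁ := le_max_left _ _
  have h7 := hcan x hx h6
  have h8 := hbig x hx h6
  have h9 := hcount x
  have h10 := centreHeight_nonneg D f (xCoords (π x))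
  have hb : baseHeight (xCoords (π x)) = ∑ i, Pool.Agent.Helper29.BL.hx (π x i) := by
    rw [xCoords_eq]
    rfl
  rw [← xCoords_eq, ← centreHeight_eq, ← hb] at h11
  set g := centreHeight D f (xCoords (π x))
  set b := baseHeight (xCoords (π x))
  have h12 : C₀ * g ≤ C₁ * g := mul_le_mul_of_nonneg_right hC₁0 h10
  have h13 : C₁ * g ≤ δ * c₀ * b + C₁ * C := by
    have := mul_le_mul_of_nonneg_left h11 (by positivity : (0 : ℝ) ≤ C₁)
    have e : C₁ * (δ * c₀ / C₁ * b + C) = δ * c₀ * b + C₁ * C := by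
      field_simp
    rw [e] at this
    exact this
  have h14 : δ * (c₀ * b - C₀) ≤ δ * hH x := mul_le_mul_of_nonneg_left h8 hδ.le
  have h15 : δ * C₀ ≤ δ * C₁ := mul_le_mul_of_nonneg_left hC₁0 hδ.le
  nlinarith

/-- **Vojta's inequality (`D = 0`) at almost all scales** for all varieties birational to a product of
elliptic curves: every centre of codimension `≥ 2`, all ranks. -/
theorem hand (hS : Pool.Agent.Helper19.HC.S_SCW) (K : Type) [Field K] [NumberField K]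
    [DecidableEq K] (σ : Type) [Fintype σ] (W : σ → Affine K) (hW : ∀ i, (W i).IsElliptic)
    (Γ : ∀ i, AddSubgroup (W i).Point) (hΓ : ∀ i, (Γ i).FG)
    (ι : Type) [Fintype ι] (D : ℕ) (f : ι → MvPolynomial σ K)
    (hdeg : ∀ j i, degreeOf i (f j) ≤ D) (hcodim : CodimGT D f 1)
    (X : Type) (π : X → ∀ i, (W i).Point) (hK hN hH : X → ℝ) (c₀ C₀ : ℝ)
    (Z₀ : MvPolynomial σ K) (hZ₀ : Z₀ ≠ 0)
    (hcan : ∀ x, (∀ i, π x i ≠ 0) → eval (xCoords (π x)) Z₀ ≠ 0 →
      hK x ≤ C₀ * centreHeight D f (xCoords (π x)) + C₀)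
    (hcount : ∀ x, 0 ≤ hN x) (hc₀ : 0 < c₀)
    (hbig : ∀ x, (∀ i, π x i ≠ 0) → eval (xCoords (π x)) Z₀ ≠ 0 →
      c₀ * baseHeight (xCoords (π x)) - C₀ ≤ hH x)
    (δ : ℝ) (hδ : 0 < δ) :
    ∃ (J : ℕ) (C : ℝ), ∀ l : ℕ, ∃ (Z : MvPolynomial σ K) (S : Set ℕ), Z ≠ 0 ∧
      (∀ a : ℕ, (S ∩ Set.Ico a (a + l)).ncard ≤ J) ∧
      ∀ x, (∀ i, π x i ∈ Γ i) → (∀ i, π x i ≠ 0) → eval (xCoords (π x)) Z ≠ 0 →
        ⌊Real.log (1 + baseHeight (xCoords (π x)))⌋₊ ∉ S →
        hN x ≥ hK x - δ * hH x - C := by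
  classical
  have hcodim' : Pool.Agent.Helper5.UN.CodimGT D f 1 := by
    intro Ω _ _ y hy hz
    exact hcodim Ω y hy hz
  obtain ⟨J, C, hC, hJ⟩ := hS K σ W hW Γ hΓ D ι f hdeg hcodim' (δ * c₀ / max C₀ 1) (by positivity)
  refine ⟨J, max C₀ 1 * C + max C₀ 1 + δ * max C₀ 1, fun l => ?_⟩
  obtain ⟨Z, S, hZ, hS', h⟩ := hJ l
  refine ⟨Z * Z₀, S, mul_ne_zero hZ hZ₀, hS', fun x hxΓ hx hxZ hxS => ?_⟩
  rw [map_mul] at hxZ
  have h5 := left_ne_zero_of_mul hxZ
  have h6 := right_ne_zero_of_mul hxZ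
  rw [xCoords_eq] at h5
  have hb : baseHeight (xCoords (π x)) = ∑ i, Pool.Agent.Helper29.BL.hx (π x i) := by
    rw [xCoords_eq]
    rfl
  rw [hb] at hxS
  exact transfer K σ W ι D f X π hK hN hH c₀ C₀ Z₀ hcan hcount hbig δ C hδ x hx h6
    (h (π x) hxΓ hx h5 hxS)

end

end Pool.Agent.Helper19.HC.HandW
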