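import Pool.Agent.Helper54.SGM.CLS

/-!
# MP_a41896_nt, project HC, part (i): the pigeonhole argument for the scales

`Ex` is a set of points of a finitely generated group with a quadratic form `H`, `L : G → ℕ` a scale function.
If no `n + 1` points of `Ex`, aligned with the last one, of growth `K0` and of bounded ratio, exist, then the
points of `Ex` occupy boundedly many scales in every window.
-/

set_option autoImplicit false

namespace Pool.Agent.Helper19.HC

open Pool.Agent.Helper42.SG Pool.Agent.Helper29.BL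

/-- The set of the scales of the points of `Ex`. -/
def Scl {G : Type} (L : G → ℕ) (Ex : G → Prop) : Set ℕ := {k | ∃ z, Ex z ∧ L z = k}

/-- Boundedly many scales in a window. -/
theorem scales_window {G : Type} [AddCommGroup G] (Γ : AddSubgroup G) (hΓ : Γ.FG)
    (H : G → ℝ) (hH : IsQuad H) (n g : ℕ) (θ K0 : ℝ) (hθ : 0 < θ) :
    ∃ J : ℕ, ∀ (R : ℝ) (l : ℕ) (L : G → ℕ) (Ex : G → Prop),
      (∀ z, Ex z → z ∈ Γ ∧ 0 < H z) →
      (∀ z z', Ex z → Ex z' → L z + g ≤ L z' → K0 * H z ≤ H z' ∧ H z ≤ H z') →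
      (∀ z z', Ex z → Ex z' → L z' ≤ L z + l → H z' ≤ R * H z) →
      (∀ (x : ℕ → G) (e : ℕ → ℕ), (∀ j j', j < j' → j' ≤ n → K0 * H (x j) ≤ H (x j')) →
        (∀ j < n, H ((2 ^ (e j)) • x j - x n) ≤ θ ^ 2 * H (x n)) → (∀ j ≤ n, Ex (x j)) →
        (∀ j ≤ n, H (x j) ≤ R * H (x 0)) → False) →
      ∀ a : ℕ, (Scl L Ex ∩ Set.Icc a (a + l)).ncard ≤ J := by
  classical
  obtain ⟨N, hN⟩ := Pool.Agent.Helper54.SGM.t_CLS G Γ hΓ H hH θ hθ
  refine ⟨g * (N * n) + g, fun R l L Ex hEx hgrow hrat hno a => ?_⟩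
  by_contra hcon
  push Not at hcon
  have hfin : (Scl L Ex ∩ Set.Icc a (a + l)).Finite :=
    (Set.finite_Icc a (a + l)).subset Set.inter_subset_right
  set F : Finset ℕ := hfin.toFinset with hF
  have hcard : g * (N * n) + g < F.card := by
    rwa [Set.ncard_eq_toFinset_card _ hfin] at hcon
  have hmemF : ∀ k ∈ F, (∃ z, Ex z ∧ L z = k) ∧ a ≤ k ∧ k ≤ a + l := by
    intro k hk
    have h := hfin.mem_toFinset.mp hk
    exact ⟨h.1, h.2.1, h.2.2⟩
  set em := F.orderEmbOfCardLe (k := g * (N * n) + g + 1) hcard with hem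
  have hemm : ∀ j, em j ∈ F := fun j => Finset.orderEmbOfCardLe_mem F hcard j
  -- the spaced elements
  set t : ℕ → ℕ := fun i => em ⟨g * min i (N * n), by
    have h1 : g * min i (N * n) ≤ g * (N * n) := Nat.mul_le_mul_left g (min_le_right _ _)
    omega⟩ with ht
  have htF : ∀ i, t i ∈ F := fun i => hemm _
  -- strictly monotone embeddings move by at least the difference
  have hstep : ∀ (i j : Fin (g * (N * n) + g + 1)), i ≤ j → em i + (j.val - i.val) ≤ em j := by
    intro i j hij
    obtain ⟨i, hi⟩ := i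
    obtain ⟨j, hj⟩ := j
    rw [Fin.mk_le_mk] at hij
    obtain ⟨d, rfl⟩ := Nat.exists_eq_add_of_le hij
    simp only
    have key : ∀ d, ∀ hj : i + d < g * (N * n) + g + 1, em ⟨i, hi⟩ + d ≤ em ⟨i + d, hj⟩ := by
      intro d
      induction d with
      | zero => intro hj; exact le_rfl
      | succ d ih =>
        intro hj
        have h1 := ih (by omega)
        have h2 : em ⟨i + d, by omega⟩ < em ⟨i + (d + 1), hj⟩ := em.strictMono (by
          rw [Fin.mk_lt_mk]; omega)
        omega
    have := key d hj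
    omega
  have htg : ∀ i j, i < j → j ≤ N * n → t i + g ≤ t j := by
    intro i j hij hj
    have h1 : min i (N * n) = i := min_eq_left (by omega)
    have h2 : min j (N * n) = j := min_eq_left hj
    have h3 : g * i + g ≤ g * j := by
      have := Nat.mul_le_mul_left g hij
      rw [Nat.mul_succ] at this
      exact this
    have h4 := hstep ⟨g * min i (N * n), by
      have h1 : g * min i (N * n) ≤ g * (N * n) := Nat.mul_le_mul_left g (min_le_right _ _)
      omega⟩ ⟨g * min j (N * n), by
      have h1 : g * min j (N * n) ≤ g * (N * n) := Nat.mul_le_mul_left g (min_le_right _ _)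
      omega⟩ (by rw [Fin.mk_le_mk, h1, h2]; omega)
    have h5 : g ≤ g * min j (N * n) - g * min i (N * n) := by
      rw [h1, h2]
      omega
    exact le_trans (Nat.add_le_add_left h5 _) h4
  have hpick : ∀ i, ∃ z, Ex z ∧ L z = t i := fun i => (hmemF _ (htF i)).1
  choose z hzE hzL using hpick
  have hconst : ∀ i, N * n ≤ i → t i = t (N * n) := by
    intro i hi
    simp only [ht, min_eq_right hi, min_self]
  -- make the sequence literally constant after N * n
  set y : ℕ → G := fun i => z (min i (N * n)) with hy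
  have hyE : ∀ i, Ex (y i) := fun i => hzE _
  have hyL : ∀ i, i ≤ N * n → L (y i) = t i := by
    intro i hi
    simp only [hy, min_eq_left hi, hzL]
  have hymono : ∀ i, H (y i) ≤ H (y (i + 1)) := by
    intro i
    by_cases hi : i + 1 ≤ N * n
    · have h1 := htg i (i + 1) (Nat.lt_succ_self i) hi
      rw [← hyL i (by omega), ← hyL (i + 1) hi] at h1
      exact (hgrow _ _ (hyE i) (hyE (i + 1)) h1).2
    · simp only [hy]
      rw [min_eq_right (by omega), min_eq_right (by omega)]
  obtain ⟨f, hf⟩ := hN (N * n) y (fun i => (hEx _ (hyE i)).1) (hEx _ (hyE 0)).2 hymono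
  obtain ⟨c, _, hc⟩ := Finset.exists_lt_card_fiber_of_mul_lt_card_of_maps_to
    (s := Finset.range (N * n + 1)) (t := (Finset.univ : Finset (Fin N))) (f := f) (n := n)
    (fun _ _ => Finset.mem_univ _) (by simp)
  set s := (Finset.range (N * n + 1)).filter (fun i => f i = c) with hs
  set emb := s.orderEmbOfCardLe (k := n + 1) hc with hemb
  have hmem : ∀ j, emb j ∈ s := fun j => Finset.orderEmbOfCardLe_mem s hc j
  set idx : ℕ → ℕ := fun j => emb ⟨min j n, by omega⟩ with hidx
  have hidxlt : ∀ i j, i < j → j ≤ n → idx i < idx j := by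
    intro i j hij hjn
    simp only [hidx]
    apply emb.strictMono
    rw [Fin.mk_lt_mk]
    omega
  have hidxs : ∀ j, idx j ≤ N * n ∧ f (idx j) = c := by
    intro j
    have h := hmem ⟨min j n, by omega⟩
    rw [hs, Finset.mem_filter, Finset.mem_range] at h
    exact ⟨by simp only [hidx]; omega, h.2⟩
  have hex : ∀ j, ∃ e : ℕ, j < n → H ((2 ^ e) • y (idx j) - y (idx n)) ≤ θ ^ 2 * H (y (idx n)) := by
    intro j
    by_cases hj : j < n
    · obtain ⟨e, he⟩ := hf (idx j) (idx n) (hidxlt j n hj le_rfl) (hidxs n).1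
        (by rw [(hidxs j).2, (hidxs n).2])
      exact ⟨e, fun _ => he⟩
    · exact ⟨0, fun h => absurd h hj⟩
  choose e he using hex
  refine hno (fun j => y (idx j)) e ?_ (fun j hj => he j hj) (fun j _ => hyE _) ?_
  · intro j j' hjj hj'
    have h1 := htg (idx j) (idx j') (hidxlt j j' hjj hj') (hidxs j').1
    rw [← hyL _ (hidxs j).1, ← hyL _ (hidxs j').1] at h1
    exact (hgrow _ _ (hyE _) (hyE _) h1).1
  · intro j hj
    apply hrat _ _ (hyE _) (hyE _)
    rw [hyL _ (hidxs j).1, hyL _ (hidxs 0).1]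
    have h1 := (hmemF _ (htF (idx j))).2.2
    have h2 := (hmemF _ (htF (idx 0))).2.1
    omega

/-- From windows to counting: the density of the set of scales. -/
theorem scales_density (S : Set ℕ) (J l : ℕ) (h : ∀ a : ℕ, (S ∩ Set.Icc a (a + l)).ncard ≤ J)
    (N : ℕ) : (S ∩ Set.Iio N).ncard ≤ J * (N / (l + 1) + 1) := by
  have key : ∀ m : ℕ, (S ∩ Set.Iio (m * (l + 1))).ncard ≤ J * m := by
    intro m
    induction m with
    | zero => simp
    | succ m ih =>
      have h1 : S ∩ Set.Iio ((m + 1) * (l + 1)) ⊆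
          (S ∩ Set.Iio (m * (l + 1))) ∪ (S ∩ Set.Icc (m * (l + 1)) (m * (l + 1) + l)) := by
        intro k hk
        obtain ⟨hkS, hk2⟩ := hk
        rw [Set.mem_Iio] at hk2
        by_cases hk3 : k < m * (l + 1)
        · exact Or.inl ⟨hkS, hk3⟩
        · refine Or.inr ⟨hkS, by omega, ?_⟩
          have : (m + 1) * (l + 1) = m * (l + 1) + l + 1 := by ring
          omega
      have hf : ((S ∩ Set.Iio (m * (l + 1))) ∪
          (S ∩ Set.Icc (m * (l + 1)) (m * (l + 1) + l))).Finite :=
        Set.Finite.union ((Set.finite_Iio _).subset Set.inter_subset_right)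
          ((Set.finite_Icc _ _).subset Set.inter_subset_right)
      have h2 := Set.ncard_le_ncard h1 hf
      have h3 := Set.ncard_union_le (S ∩ Set.Iio (m * (l + 1)))
        (S ∩ Set.Icc (m * (l + 1)) (m * (l + 1) + l))
      have h4 := h (m * (l + 1))
      have h5 : J * (m + 1) = J * m + J := by ring
      omega
  have h1 : S ∩ Set.Iio N ⊆ S ∩ Set.Iio ((N / (l + 1) + 1) * (l + 1)) := by
    intro k hk
    refine ⟨hk.1, ?_⟩
    have h2 := hk.2
    rw [Set.mem_Iio] at h2 ⊢
    have h3 := Nat.lt_div_mul_add (a := N) (b := l + 1) (by omega)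
    have h4 : (N / (l + 1) + 1) * (l + 1) = N / (l + 1) * (l + 1) + (l + 1) := by ring
    omega
  exact (Set.ncard_le_ncard h1 ((Set.finite_Iio _).subset Set.inter_subset_right)).trans (key _)

end Pool.Agent.Helper19.HC
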