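import Pool.Agent.Helper60.HC.GoalsP
import Pool.Agent.Helper19.HC.SC
import Pool.Agent.Helper13.SGE.QTR
import Pool.Agent.Helper24.SGB.ELAW
import Pool.Agent.Helper29.BL.Asm

/-!
# MP_a41896_nt, project HC, part (i): Vojta's inequality at almost all scales, every centre of codimension `≥ 2`

`S_SCAL`: for every centre of codimension `≥ 2` in a product of elliptic curves, all points of finitely
generated groups (no rank condition): off a hypersurface the inequality `cH ≤ ε h + c` can fail only for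
points whose height is in a set of scales of density `≤ η`.
-/

set_option autoImplicit false

open MvPolynomial

namespace Pool.Agent.Helper19.HC

open WeierstrassCurve Height Height.AdmissibleAbsValues
open Pool.Agent.Helper29.BL Pool.Agent.Helper92.Ru Pool.Agent.Helper42.SG Pool.Agent.Helper60.HC
open Pool.Agent.Helper5.UN (hv CodimGT cH)

noncomputable section

/-- **SCAL**. -/
def S_SCAL : Prop :=
  ∀ (K : Type) [Field K] [NumberField K] [DecidableEq K] (σ : Type) [Fintype σ] [DecidableEq σ]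
    (W : σ → Affine K), (∀ i, (W i).IsElliptic) → ∀ Γ : ∀ i, AddSubgroup (W i).Point,
    (∀ i, (Γ i).FG) → ∀ (D : ℕ) (ι : Type) [Fintype ι] (f : ι → MvPolynomial σ K),
    (∀ j i, degreeOf i (f j) ≤ D) → CodimGT D f 1 →
    ∀ ε η : ℝ, 0 < ε → 0 < η → ∃ (Z : MvPolynomial σ K) (c : ℝ) (S : Set ℕ), Z ≠ 0 ∧ 0 ≤ c ∧
      (∀ N : ℕ, ((S ∩ Set.Iio N).ncard : ℝ) ≤ η * N + c) ∧
      ∀ z : ∀ i, (W i).Point, (∀ i, z i ∈ Γ i) → (∀ i, z i ≠ 0) → eval (xs z) Z ≠ 0 →
        ⌊Real.log (1 + ∑ i, hx (z i))⌋₊ ∉ S →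
        cH D f (xs z) ≤ ε * ∑ i, hx (z i) + c

/-- the square of `ψ` as a polynomial in the variable `X_i` -/
def psP {K : Type} [Field K] {σ : Type} (W : Affine K) (i : σ) : MvPolynomial σ K :=
  C 4 * X i ^ 3 + C W.b₂ * X i ^ 2 + C (2 * W.b₄) * X i + C W.b₆

theorem psP_ne {K : Type} [Field K] [CharZero K] {σ : Type} (W : Affine K) (i : σ) :
    (psP W i : MvPolynomial σ K) ≠ 0 := by
  intro h
  have h1 := congrArg (aeval (fun _ : σ => (Polynomial.X : Polynomial K))) h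
  rw [map_zero] at h1
  have h2 : aeval (fun _ : σ => (Polynomial.X : Polynomial K)) (psP W i) =
      (⟨4, W.b₂, 2 * W.b₄, W.b₆⟩ : Cubic K).toPoly := by
    simp only [psP, map_add, map_mul, map_pow, aeval_X, Cubic.toPoly, algHom_C,
      Polynomial.algebraMap_eq]
  rw [h2] at h1
  exact Cubic.ne_zero_of_a_ne_zero (P := (⟨4, W.b₂, 2 * W.b₄, W.b₆⟩ : Cubic K))
    (by simp) h1

theorem psP_eval {K : Type} [Field K] {σ : Type} {W : σ → Affine K} (z : ∀ i, (W i).Point)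
    (i : σ) (hz : z i ≠ 0) : eval (xs z) (psP (W i) i) = ps (z i) ^ 2 := by
  rw [Pool.Agent.Helper24.SGB.ps_sq _ hz]
  simp only [psP, map_add, map_mul, map_pow, eval_X, eval_C, Bf, xs]

theorem floor_le' {x : ℝ} (hx : 0 ≤ x) : ((⌊Real.log (1 + x)⌋₊ : ℕ) : ℝ) ≤ Real.log (1 + x) :=
  Nat.floor_le (Real.log_nonneg (by linarith))

theorem lt_floor' (x : ℝ) : Real.log (1 + x) < (⌊Real.log (1 + x)⌋₊ : ℕ) + 1 :=
  Nat.lt_floor_add_one _

theorem scal (hP1 : S_P1) (hCHB : S_CHB) (hPRJ : S_PRJ) (hEMP : S_EMPH) (hNOR : S_NORT)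
    (hQPI : S_QPI) : S_SCAL := by
  intro K _ _ _ σ _ _ W hW Γ hΓ D ι _ f hdeg hcod ε η hε hη
  classical
  -- small dimension: the centre is empty
  by_cases hcard : Fintype.card σ ≤ 1
  · obtain ⟨c, hc⟩ := hEMP K σ 1 D ι f hdeg hcod hcard
    refine ⟨1, max c 0, ∅, one_ne_zero, le_max_right _ _, fun N => ?_, fun z _ _ _ _ => ?_⟩
    · simp only [Set.empty_inter, Set.ncard_empty, Nat.cast_zero]
      positivity
    · have h1 := hc (xs z)
      have h2 : 0 ≤ ∑ i, hx (z i) := Finset.sum_nonneg fun i _ => zero_le_logHeight₁ _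
      have h3 := le_max_left c 0
      nlinarith
  have hcard2 : 2 ≤ Fintype.card σ := by omega
  -- canonical heights
  have hcan : ∀ i, ∃ (H : (W i).Point → ℝ) (c : ℝ), CanH (W i) H c := fun i => by
    have := hW i
    exact th_can K (W i)
  choose H cc hHc using hcan
  have hcc : ∀ i, 0 ≤ cc i := fun i => (abs_nonneg _).trans ((hHc i).near 0)
  set c₀ : ℝ := ∑ i, cc i with hc₀
  have hc₀i : ∀ i, cc i ≤ c₀ := fun i =>
    Finset.single_le_sum (f := cc) (fun j _ => hcc j) (Finset.mem_univ i)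
  have hc₀0 : 0 ≤ c₀ := Finset.sum_nonneg fun i _ => hcc i
  have hH : ∀ i, CanH (W i) (H i) c₀ := fun i => ⟨(hHc i).quad, fun P => ((hHc i).near P).trans (hc₀i i)⟩
  set m : ℝ := ((Fintype.card σ : ℕ) : ℝ) with hm
  have hm0 : 0 ≤ m := by positivity
  set bh : (∀ i, (W i).Point) → ℝ := fun z => ∑ i, hx (z i) with hbh
  have hbh0 : ∀ z, 0 ≤ bh z := fun z => Finset.sum_nonneg fun i _ => zero_le_logHeight₁ _
  have hnb : ∀ z, |nrs H z - bh z| ≤ m * c₀ := by
    intro z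
    have h1 : nrs H z - bh z = ∑ i, (H i (z i) - hx (z i)) := by
      simp only [nrs, hbh, Finset.sum_sub_distrib]
    rw [h1]
    refine (Finset.abs_sum_le_sum_abs _ _).trans ?_
    refine (Finset.sum_le_sum fun i _ => (hH i).near (z i)).trans ?_
    rw [Finset.sum_const, Finset.card_univ, nsmul_eq_mul]
  have hQ : IsQuad (nrs H) := hQPI.1 σ (fun i => (W i).Point) H fun i => (hHc i).quad
  have hFG : (AddSubgroup.pi Set.univ Γ).FG := hQPI.2 σ (fun i => (W i).Point) Γ hΓ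
  -- P1
  obtain ⟨n, D', C', θ₁, K1', hθ₁, hC', hp1⟩ := hP1 K σ W hW H c₀ hH D ι f hdeg hcod hcard2 (ε / 4)
    (by positivity)
  set K1 : ℝ := max K1' 1 with hK1
  have hK11 : 1 ≤ K1 := le_max_right _ _
  have hK1' : K1' ≤ K1 := le_max_left _ _
  set θ : ℝ := min θ₁ (1 / 8) with hθ
  have hθ0 : 0 < θ := lt_min hθ₁ (by norm_num)
  have hθ8 : θ ≤ 1 / 8 := min_le_right _ _
  have hθθ : θ ^ 2 ≤ θ₁ := by
    have : θ ≤ θ₁ := min_le_left _ _
    nlinarith
  set K0 : ℝ := 4 * K1 with hK0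
  -- the gap
  obtain ⟨g, hg⟩ : ∃ g : ℕ, 4 * K0 ≤ Real.exp ((g : ℝ) - 1) := by
    obtain ⟨g, hg⟩ := exists_nat_ge (Real.log (4 * K0) + 1)
    refine ⟨g, ?_⟩
    rw [← Real.log_le_iff_le_exp (by positivity)]
    linarith
  obtain ⟨J, hJ⟩ := scales_window (AddSubgroup.pi Set.univ Γ) hFG (nrs H) hQ (n + 1) g θ K0 hθ0
  -- the length of the windows
  obtain ⟨l, hl⟩ : ∃ l : ℕ, (J : ℝ) / (l + 1) ≤ η := by
    obtain ⟨l, hl⟩ := exists_nat_ge ((J : ℝ) / η)
    refine ⟨l, ?_⟩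
    rw [div_le_iff₀ (by positivity)]
    rw [div_le_iff₀ hη] at hl
    nlinarith
  set R : ℝ := 8 * Real.exp ((l : ℝ) + 1) with hR
  have hR0 : 0 < R := by positivity
  -- the hypersurface
  obtain ⟨ZN, hZN, hZN'⟩ := hNOR K σ D' (C' * (4 * R))
  obtain ⟨E, J', _, f', G, c₂, -, -, hG, -, hG'⟩ := hPRJ K σ 1 D ι f hdeg hcod Finset.univ
    (by rw [Finset.card_univ]) (by rw [Finset.card_univ]; omega)
  obtain ⟨c₁, hc₁, hchb⟩ := hCHB K σ D ι f hdeg
  set Zp : MvPolynomial σ K := ∏ i, psP (W i) i with hZp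
  have hZp0 : Zp ≠ 0 := Finset.prod_ne_zero_iff.mpr fun i _ => psP_ne _ _
  set B₀ : ℝ := 2 * (m * c₀) + 4 * K1 + 1 with hB₀
  have hB₀0 : 0 < B₀ := by
    have := mul_nonneg hm0 hc₀0
    linarith
  set c : ℝ := c₁ + (D + 1) * B₀ + J with hc
  have hc0 : 0 ≤ c := by positivity
  set Z : MvPolynomial σ K := ZN * Zp * G with hZ
  set L : (∀ i, (W i).Point) → ℕ := fun z => ⌊Real.log (1 + bh z)⌋₊ with hL
  set Ex : (∀ i, (W i).Point) → Prop := fun z => (∀ i, z i ∈ Γ i) ∧ (∀ i, z i ≠ 0) ∧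
    eval (xs z) Z ≠ 0 ∧ ε * bh z + c < cH D f (xs z) with hEx
  -- the properties of exceptional points
  have hbig : ∀ z, Ex z → B₀ ≤ bh z := by
    intro z hz
    obtain ⟨-, -, h3, h4⟩ := hz
    rw [hZ, map_mul] at h3
    obtain ⟨j, hj⟩ := (hG' _ (right_ne_zero_of_mul h3)).2.1
    have h5 := (hchb (xs z) ⟨j, hj⟩).1
    have h6 : ∑ i, logHeight₁ (xs z i) = bh z := rfl
    rw [h6] at h5
    have h7 := hbh0 z
    by_contra hlt
    push Not at hlt
    have h8 : (D : ℝ) * bh z ≤ (D + 1) * B₀ := by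
      have hD : (0 : ℝ) ≤ D := Nat.cast_nonneg D
      nlinarith
    have h9 : 0 ≤ ε * bh z := by positivity
    have h10 : (0 : ℝ) ≤ J := Nat.cast_nonneg J
    linarith
  have hcomp : ∀ z, Ex z → bh z / 2 ≤ nrs H z ∧ nrs H z ≤ 2 * bh z := by
    intro z hz
    have h1 := hbig z hz
    have h2 := abs_le.mp (hnb z)
    have h3 := mul_nonneg hm0 hc₀0
    constructor <;> linarith [h2.1, h2.2]
  have hn2K : ∀ z, Ex z → 2 * K1 ≤ nrs H z := by
    intro z hz
    have h1 := hbig z hz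
    have h2 := (hcomp z hz).1
    have h3 := mul_nonneg hm0 hc₀0
    linarith
  have hlow : ∀ z, Ex z → ¬ Lo Finset.univ D' (C' * (4 * R)) (xs z) := by
    rintro z hz ⟨p, hp0, hpd, -, hpz, hph⟩
    obtain ⟨q, hq⟩ := hZN' p hp0 hpd hph
    apply hz.2.2.1
    rw [hZ, hq, map_mul, map_mul, map_mul, hpz, zero_mul, zero_mul, zero_mul]
  have hLlog : ∀ z, (L z : ℝ) ≤ Real.log (1 + bh z) ∧ Real.log (1 + bh z) < L z + 1 :=
    fun z => ⟨floor_le' (hbh0 z), lt_floor' _⟩
  have hwin := hJ R l L Ex (fun z hz => ⟨fun i _ => hz.1 i, by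
      have := hn2K z hz
      linarith⟩) ?_ ?_ ?_
  · have hden := scales_density (Scl L Ex) J l hwin
    refine ⟨Z, c, Scl L Ex, mul_ne_zero (mul_ne_zero hZN hZp0) hG, hc0, fun N => ?_,
      fun z h1 h2 h3 h4 => ?_⟩
    · have h5 : (((Scl L Ex) ∩ Set.Iio N).ncard : ℝ) ≤ (J : ℝ) * ((N / (l + 1) : ℕ) + 1) := by
        exact_mod_cast hden N
      have h6 : ((N / (l + 1) : ℕ) : ℝ) ≤ (N : ℝ) / (l + 1) := by
        have := Nat.cast_div_le (α := ℝ) (m := N) (n := l + 1)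
        push_cast at this
        exact this
      have h7 : (J : ℝ) * ((N / (l + 1) : ℕ) + 1) ≤ J / (l + 1) * N + J := by
        have h8 : (J : ℝ) * ((N / (l + 1) : ℕ) : ℝ) ≤ J * ((N : ℝ) / (l + 1)) :=
          mul_le_mul_of_nonneg_left h6 (Nat.cast_nonneg J)
        have h9 : (J : ℝ) * ((N : ℝ) / (l + 1)) = J / (l + 1) * N := by ring
        linarith
      have h10 : (J : ℝ) / (l + 1) * N ≤ η * N := mul_le_mul_of_nonneg_right hl (Nat.cast_nonneg N)
      have h11 : (J : ℝ) ≤ c := by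
        have : 0 ≤ c₁ + (D + 1) * B₀ := by positivity
        linarith
      linarith
    · by_contra hcon
      push Not at hcon
      exact h4 ⟨z, ⟨h1, h2, h3, hcon⟩, rfl⟩
  · -- growth
    intro z z' hz hz' hLL
    have h1 := hLlog z
    have h2 := hLlog z'
    have h3 : (L z : ℝ) + g ≤ L z' := by exact_mod_cast hLL
    have h4 : Real.log (1 + bh z) + ((g : ℝ) - 1) ≤ Real.log (1 + bh z') := by linarith [h1.2, h2.1]
    have h5 : (1 + bh z) * Real.exp ((g : ℝ) - 1) ≤ 1 + bh z' := by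
      have h6 := Real.exp_le_exp.mpr h4
      rwa [Real.exp_add, Real.exp_log (by linarith [hbh0 z]),
        Real.exp_log (by linarith [hbh0 z'])] at h6
    have h6 : (1 + bh z) * (4 * K0) ≤ 1 + bh z' :=
      (mul_le_mul_of_nonneg_left hg (by linarith [hbh0 z])).trans h5
    have h7 : 4 * K0 * bh z ≤ bh z' := by
      have : 1 ≤ 4 * K0 := by linarith
      nlinarith
    have h8 := hcomp z hz
    have h9 := hcomp z' hz'
    have hK0p : 0 < K0 := by linarith
    have h10 : K0 * nrs H z ≤ nrs H z' := by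
      have : K0 * nrs H z ≤ K0 * (2 * bh z) := mul_le_mul_of_nonneg_left h8.2 hK0p.le
      linarith [h9.1]
    refine ⟨h10, ?_⟩
    have h11 : 0 ≤ nrs H z := hQ.nonneg z
    nlinarith
  · -- ratio
    intro z z' hz hz' hLL
    have h1 := hLlog z
    have h2 := hLlog z'
    have h3 : (L z' : ℝ) ≤ L z + l := by exact_mod_cast hLL
    have h4 : Real.log (1 + bh z') ≤ Real.log (1 + bh z) + ((l : ℝ) + 1) := by
      linarith [h1.1, h2.2]
    have h5 : 1 + bh z' ≤ (1 + bh z) * Real.exp ((l : ℝ) + 1) := by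
      have h6 := Real.exp_le_exp.mpr h4
      rwa [Real.exp_add, Real.exp_log (by linarith [hbh0 z']),
        Real.exp_log (by linarith [hbh0 z])] at h6
    have h6 := hcomp z hz
    have h7 := hcomp z' hz'
    have h8 : 1 ≤ bh z := by
      have := hbig z hz
      have := mul_nonneg hm0 hc₀0
      linarith
    have h9 : (1 + bh z) * Real.exp ((l : ℝ) + 1) ≤ 2 * bh z * Real.exp ((l : ℝ) + 1) :=
      mul_le_mul_of_nonneg_right (by linarith) (Real.exp_nonneg _)
    have h10 : R * (bh z / 2) ≤ R * nrs H z := mul_le_mul_of_nonneg_left h6.1 hR0.le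
    rw [hR] at h10 ⊢
    linarith [h7.2]
  · -- the aligned points
    intro x e hgrow hnear hexx hrat
    set T : ℝ := nrs H (x (n + 1)) with hT
    have hTn : 0 ≤ T := hQ.nonneg _
    have hq : ∀ j < n + 1, T / 2 ≤ (4 : ℝ) ^ e j * nrs H (x j) ∧
        (4 : ℝ) ^ e j * nrs H (x j) ≤ 2 * T := by
      intro j hj
      obtain ⟨h1, h2⟩ := Pool.Agent.Helper13.SGE.qtr _ (nrs H) hQ (e j) (x j) (x (n + 1)) θ hθ0.le
        (by linarith) (hnear j hj)
      constructor
      · nlinarith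
      · nlinarith
    have hpos : ∀ j ≤ n + 1, 2 * K1 ≤ nrs H (x j) := fun j hj => hn2K _ (hexx j hj)
    have h4p : ∀ j, (0 : ℝ) < 4 ^ e j := fun j => by positivity
    have hbig4 : ∀ j < n + 1, 2 * K1 ≤ (4 : ℝ) ^ e j := by
      intro j hj
      have h1 := hgrow j (n + 1) hj le_rfl
      have h2 := (hq j hj).1
      have h3 := hpos j hj.le
      have h4 : (2 * K1) * nrs H (x j) ≤ 4 ^ e j * nrs H (x j) := by linarith
      exact le_of_mul_le_mul_right h4 (by linarith)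
    have hal : Al H D f (n + 1) θ₁ (ε / 4) K1' (fun j : Fin (n + 1) => x j) (x (n + 1))
        (fun j => e j) T := by
      have hnd : ∀ j ≤ n + 1, ∀ i, x j i ≠ 0 ∧ ps (x j i) ≠ 0 := by
        intro j hj i
        obtain ⟨-, h2, h3, -⟩ := hexx j hj
        refine ⟨h2 i, fun h0 => ?_⟩
        apply h3
        have h4 : eval (xs (x j)) Zp = 0 := by
          rw [hZp, map_prod]
          apply Finset.prod_eq_zero (Finset.mem_univ i)
          rw [psP_eval _ _ (h2 i), h0, zero_pow (by norm_num)]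
        rw [hZ, map_mul, map_mul, h4, mul_zero, zero_mul]
      refine ⟨fun j i => hnd j.1 (by omega) i, fun i => hnd (n + 1) le_rfl i,
        fun j => (hq j.1 j.2).2, by linarith, fun j => ?_, fun j => ?_, fun j => ?_, fun j => ?_,
        fun j => ?_, fun j j' hjj => ?_⟩
      · exact (hnear j.1 j.2).trans (mul_le_mul_of_nonneg_right hθθ hTn)
      · have h1 := (hexx j.1 (by omega)).2.2.2
        have h2 := (hcomp _ (hexx j.1 (by omega))).2
        have h3 := (hq j.1 j.2).1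
        have h4 : ε / 2 * nrs H (x j.1) ≤ cH D f (xs (x j.1)) := by nlinarith
        have h5 : (4 : ℝ) ^ e j.1 * (ε / 2 * nrs H (x j.1)) ≤
            (4 : ℝ) ^ e j.1 * cH D f (xs (x j.1)) := mul_le_mul_of_nonneg_left h4 (h4p _).le
        have h6 : ε / 2 * (T / 2) ≤ ε / 2 * ((4 : ℝ) ^ e j.1 * nrs H (x j.1)) :=
          mul_le_mul_of_nonneg_left h3 (by positivity)
        calc ε / 4 * T = ε / 2 * (T / 2) := by ring
          _ ≤ ε / 2 * ((4 : ℝ) ^ e j.1 * nrs H (x j.1)) := h6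
          _ = (4 : ℝ) ^ e j.1 * (ε / 2 * nrs H (x j.1)) := by ring
          _ ≤ _ := h5
      · have h3 := (hexx j.1 (by omega)).2.2.1
        rw [hZ, map_mul] at h3
        exact (hG' _ (right_ne_zero_of_mul h3)).2.1
      · have := hbig4 j.1 j.2
        linarith
      · have h1 := hpos j.1 (by omega)
        have h2 := (hq j.1 j.2).2
        have h3 : (4 : ℝ) ^ e j.1 * (2 * K1) ≤ 2 * T :=
          (mul_le_mul_of_nonneg_left h1 (h4p _).le).trans h2
        have h4 : K1' * (4 : ℝ) ^ e j.1 ≤ K1 * 4 ^ e j.1 :=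
          mul_le_mul_of_nonneg_right hK1' (h4p _).le
        linarith
      · have hjj' : j.1 < j'.1 := hjj
        have h1 := hgrow j.1 j'.1 hjj' (by omega)
        have h2 := (hq j'.1 j'.2).2
        have h3 := (hq j.1 j.2).1
        have h4 : (4 : ℝ) ^ e j'.1 * (K0 * nrs H (x j.1)) ≤ 4 * ((4 : ℝ) ^ e j.1 * nrs H (x j.1)) :=
          (mul_le_mul_of_nonneg_left h1 (h4p _).le).trans (by linarith)
        have h5 : (K1 * (4 : ℝ) ^ e j'.1) * nrs H (x j.1) ≤ 4 ^ e j.1 * nrs H (x j.1) := by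
          rw [hK0] at h4
          linarith
        have h6 := le_of_mul_le_mul_right h5 (by linarith [hpos j.1 (by omega)])
        exact (mul_le_mul_of_nonneg_right hK1' (h4p _).le).trans h6
    have h40 : ∀ j ≤ n + 1, (4 : ℝ) ^ e 0 * nrs H (x 0) ≤ 2 * T := fun _ _ => (hq 0 (by omega)).2
    have hx0p : 0 < nrs H (x 0) := by linarith [hpos 0 (by omega)]
    rcases hp1 _ _ _ _ hal with ⟨j, hj⟩ | hj
    · apply hlow _ (hexx j.1 (by omega))
      obtain ⟨p, hp0, hpd, hpi, hpz, hph⟩ := hj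
      refine ⟨p, hp0, hpd, hpi, hpz, hph.trans ?_⟩
      apply mul_le_mul_of_nonneg_left _ hC'
      have h1 := (hq j.1 j.2).1
      have h2 := h40 0 (by omega)
      have h3 := hrat j.1 (by omega)
      show (4 : ℝ) ^ e ((0 : Fin (n + 1)) : ℕ) / 4 ^ e j.1 ≤ 4 * R
      rw [Fin.val_zero, div_le_iff₀ (h4p _)]
      have h4 : (4 : ℝ) ^ e 0 * nrs H (x 0) ≤ (4 * R * 4 ^ e j.1) * nrs H (x 0) := by
        have h5 : (4 : ℝ) ^ e j.1 * nrs H (x j.1) ≤ 4 ^ e j.1 * (R * nrs H (x 0)) :=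
          mul_le_mul_of_nonneg_left h3 (h4p _).le
        linarith
      exact le_of_mul_le_mul_right h4 hx0p
    · apply hlow _ (hexx (n + 1) le_rfl)
      obtain ⟨p, hp0, hpd, hpi, hpz, hph⟩ := hj
      refine ⟨p, hp0, hpd, hpi, hpz, hph.trans ?_⟩
      apply mul_le_mul_of_nonneg_left _ hC'
      have h2 := h40 0 (by omega)
      have h3 := hrat (n + 1) le_rfl
      show (4 : ℝ) ^ e ((0 : Fin (n + 1)) : ℕ) ≤ 4 * R
      rw [Fin.val_zero]
      have h4 : (4 : ℝ) ^ e 0 * nrs H (x 0) ≤ (4 * R) * nrs H (x 0) := by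
        have h5 : 0 ≤ R * nrs H (x 0) := by positivity
        linarith
      exact le_of_mul_le_mul_right h4 hx0p

end

end Pool.Agent.Helper19.HC
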