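import Pool.Agent.Helper19.HC.SCW
import Pool.Agent.Helper51.HC.ELOC2
import Pool.Agent.Helper66.HC.ELIM
import Pool.Agent.Helper16.HC.EMPH
import Pool.Agent.Helper16.HC.CHB
import Pool.Agent.Helper61.HC.PRJ
import Pool.Agent.Helper70.HC.NORT
import Pool.Agent.Helper55.HC.QPI
import Pool.Agent.Helper68.VN.Main

/-!
# MP_a41896_nt, project HC, part (i), window form: assembly
-/

set_option autoImplicit false

namespace Pool.Agent.Helper19.HC

open Pool.Agent.Helper60.HC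

theorem t_SCW_of (hP1 : S_P1) : S_SCW :=
  scw hP1 Pool.Agent.Helper16.HC.CHB.t
    (Pool.Agent.Helper61.HC.PRJ.t (Pool.Agent.Helper51.HC.ELOC2.t Pool.Agent.Helper66.HC.ELIM.t)
      Pool.Agent.Helper16.HC.CHB.t)
    (Pool.Agent.Helper16.HC.EMPH.t (Pool.Agent.Helper51.HC.ELOC2.t Pool.Agent.Helper66.HC.ELIM.t))
    Pool.Agent.Helper70.HC.NORT.t Pool.Agent.Helper55.HC.QPI.t

theorem t_SCW : S_SCW := t_SCW_of Pool.Agent.Helper68.VN.th_P1

end Pool.Agent.Helper19.HC
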